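import Pool.Agent.R793.CDN.F10a

set_option linter.all false

namespace R745CD

open H825CD

namespace F10

theorem cc1 (l : ℝ) : 0 ≤ (100 - (10 - l) * l) := by nlinarith [sq_nonneg (l - 5)]

theorem cc2 (l L : ℝ) (h : l ≤ 10) (h0 : 0 ≤ l) (h1 : 0 ≤ L) :
    0 ≤ (10 * (10 - l) + 10 * L - (10 - l) * L) := by
  have := mul_nonneg h0 h1
  linarith

end F10

open F10 in
theorem tN_final10 : N_final 10 := by
  intro m k l K L aj bj zj wj ai bi zi wi p r Z10 Z01 Z11 W10 W01 W11 h hZ10 hZ01 hZ11 hW10 hW01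
    hW11 hV1 hV2 hz hw hx hy hp' hr' hpW hrZ
  obtain ⟨hm, hm0, hk, hl, hkl, hK, hL, hKL, haj0, hbj0, hai0, hbi0, haj2, hbj2, hai2, hbi2,
    haj, hbj, hai, hbi, hJ1, hJ2, hJ3, hI1, hI2, hp, hr⟩ := h
  have hqb : ((qb 10 : ℕ) : ℝ) = 30 := by norm_num [qb]
  rw [hqb] at hm hpW hrZ
  have hQ : ((10 : ℕ) : ℝ) = 10 := by norm_num
  rw [hQ] at hJ3 hV1 hV2
  have hkl' : (k : ℝ) + l ≤ 10 := by exact_mod_cast hkl
  have hKL' : (K : ℝ) + L ≤ 10 := by exact_mod_cast hKL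
  have hkR : (1 : ℝ) ≤ k := by exact_mod_cast hk
  have hlR : (1 : ℝ) ≤ l := by exact_mod_cast hl
  have hKR : (1 : ℝ) ≤ K := by exact_mod_cast hK
  have hLR : (1 : ℝ) ≤ L := by exact_mod_cast hL
  have hzj0 : 0 < zj := by
    by_contra hcon
    have := mul_nonpos_of_nonneg_of_nonpos (by linarith : (0 : ℝ) ≤ k) (not_lt.1 hcon)
    linarith
  have hwj0 : 0 < wj := by
    by_contra hcon
    have := mul_nonpos_of_nonneg_of_nonpos (by linarith : (0 : ℝ) ≤ l) (not_lt.1 hcon)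
    linarith
  have hzi0 : 0 < zi := by
    by_contra hcon
    have := mul_nonpos_of_nonneg_of_nonpos (by linarith : (0 : ℝ) ≤ K) (not_lt.1 hcon)
    linarith
  have hwi0 : 0 < wi := by
    by_contra hcon
    have := mul_nonpos_of_nonneg_of_nonpos (by linarith : (0 : ℝ) ≤ L) (not_lt.1 hcon)
    linarith
  -- enlarge `k` and `K`
  obtain ⟨k', hk'⟩ : ∃ k' : ℝ, k' = 10 - l := ⟨_, rfl⟩
  obtain ⟨K', hK'⟩ : ∃ K' : ℝ, K' = 10 - L := ⟨_, rfl⟩
  have hkk : (k : ℝ) ≤ k' := by linarith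
  have hKK : (K : ℝ) ≤ K' := by linarith
  have haj' : aj ≤ k' * zj := haj.trans (mul_le_mul_of_nonneg_right hkk hzj0.le)
  have hai' : ai ≤ K' * zi := hai.trans (mul_le_mul_of_nonneg_right hKK hzi0.le)
  have hz' : zj ≤ Z10 + K' * Z11 := hz.trans (by
    have := mul_le_mul_of_nonneg_right hKK hZ11
    linarith)
  have hp'' : 1 - aj - K' * Z01 ≤ p := by
    have := mul_le_mul_of_nonneg_right hKK hZ01
    linarith
  obtain ⟨uz, uw⟩ := upJ (k := k') (l := l) hm hm0 (by linarith) hlR (by linarith) hzj0 hwj0 hbj2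
    haj2 haj' hbj hJ1 hJ2
  obtain ⟨ux, uy⟩ := upI (k := K') (l := L) hm hm0 (by linarith) hLR (by linarith) hzi0 hwi0 hbi2
    hai2 hai' hbi hI1 hI2
  -- lower bounds
  have lz : m ≤ zj := by
    have f1 : bj * (1 - aj) ≤ (l * wj) * (1 - aj) := mul_le_mul_of_nonneg_right hbj (by linarith)
    have f2 : l * (wj * (1 - aj + zj)) ≤ l * m := mul_le_mul_of_nonneg_left hJ2 (by linarith)
    have f3 : 0 ≤ l * (wj * zj) := by positivity
    have e : k' * m = 10 * m - l * m := by rw [hk']; ring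
    have f4 : k' * m < k' * zj := by linarith
    exact (lt_of_mul_lt_mul_left f4 (by linarith)).le
  have lw : m ≤ wj := by
    have f1 : aj * (1 - bj) ≤ (k' * zj) * (1 - bj) :=
      mul_le_mul_of_nonneg_right haj' (by linarith)
    have f2 : k' * (zj * (1 - bj + wj)) ≤ k' * m := mul_le_mul_of_nonneg_left hJ1 (by linarith)
    have f3 : 0 ≤ k' * (zj * wj) := mul_nonneg (by linarith) (by positivity)
    have e : k' * m = 10 * m - l * m := by rw [hk']; ring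
    have f4 : l * m < l * wj := by linarith
    exact (lt_of_mul_lt_mul_left f4 (by linarith)).le
  have hp0 : 0 ≤ p := by linarith
  have hr0 : 0 ≤ r := by linarith
  -- the sum of the two inequalities
  have e1 : p * r + 10 * (p * (wj + W01) + r * (zj + Z01)) ≤
      1 + (10 * L - 50) * (p * W11 - r * Z11) := by
    have g1 : p * wj ≤ p * (W10 + L * W11) := mul_le_mul_of_nonneg_left hw hp0
    have g2 : r * zj ≤ r * (Z10 + K' * Z11) := mul_le_mul_of_nonneg_left hz' hr0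
    have g3 : K' * (r * Z11) = (10 - L) * (r * Z11) := by rw [hK']
    linarith
  obtain ⟨p0, hp0'⟩ : ∃ p0 : ℝ, p0 = 1 - k' * zj - K' * Z01 := ⟨_, rfl⟩
  obtain ⟨r0, hr0'⟩ : ∃ r0 : ℝ, r0 = 1 - l * wj - L * W01 := ⟨_, rfl⟩
  have hpp : p0 ≤ p := by linarith
  have hrr : r0 ≤ r := by linarith
  have hpz : 0 ≤ p0 + 10 * (zj + Z01) := by
    have g1 : k' * zj ≤ 10 * zj := mul_le_mul_of_nonneg_right (by linarith) hzj0.le
    have g2 : K' * Z01 ≤ 10 * Z01 := mul_le_mul_of_nonneg_right (by linarith) hZ01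
    linarith
  have e2 : p0 * r0 + 10 * (p0 * (wj + W01) + r0 * (zj + Z01)) ≤
      p * r + 10 * (p * (wj + W01) + r * (zj + Z01)) := by
    have g1 : 0 ≤ (p - p0) * (r + 10 * (wj + W01)) := mul_nonneg (by linarith) (by linarith)
    have g2 : 0 ≤ (r - r0) * (p0 + 10 * (zj + Z01)) := mul_nonneg (by linarith) hpz
    linarith
  -- scaling
  obtain ⟨z, hzz⟩ : ∃ z : ℝ, z = zj / m := ⟨_, rfl⟩
  obtain ⟨w, hww⟩ : ∃ w : ℝ, w = wj / m := ⟨_, rfl⟩
  obtain ⟨x, hxx⟩ : ∃ x : ℝ, x = Z01 / m := ⟨_, rfl⟩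
  obtain ⟨y, hyy⟩ : ∃ y : ℝ, y = W01 / m := ⟨_, rfl⟩
  obtain ⟨d, hdd⟩ : ∃ d : ℝ, d = (p * W11 - r * Z11) / m := ⟨_, rfl⟩
  have ez : zj = m * z := by rw [hzz]; field_simp
  have ew : wj = m * w := by rw [hww]; field_simp
  have ex : Z01 = m * x := by rw [hxx]; field_simp
  have ey : W01 = m * y := by rw [hyy]; field_simp
  have ed : p * W11 - r * Z11 = m * d := by rw [hdd]; field_simp
  have hx1 : Z01 ≤ m * (1 + 538 / 10000 * L) := hx.trans ux
  have hy1 : W01 ≤ m * (1 + 538 / 10000 * (10 - L)) := hy.trans uy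
  have pW0 : 0 ≤ p * W11 := mul_nonneg hp0 hW11
  have rZ0 : 0 ≤ r * Z11 := mul_nonneg hr0 hZ11
  rw [ez] at lz uz
  rw [ew] at lw uw
  rw [ex] at hx1
  rw [ey] at hy1
  have bz1 : 1 ≤ z := le_of_mul_le_mul_left (by linarith) hm0
  have bz2 := le_of_mul_le_mul_left uz hm0
  have bw1 : 1 ≤ w := le_of_mul_le_mul_left (by linarith) hm0
  have bw2 := le_of_mul_le_mul_left uw hm0
  have bx1 : 0 ≤ x := by rw [hxx]; positivity
  have bx2 := le_of_mul_le_mul_left hx1 hm0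
  have by1 : 0 ≤ y := by rw [hyy]; positivity
  have by2 := le_of_mul_le_mul_left hy1 hm0
  have bd1 : -(1 / 30) ≤ d := le_of_mul_le_mul_left (by linarith) hm0
  have bd2 : d ≤ 1 / 30 := le_of_mul_le_mul_left (by linarith) hm0
  have hpos := box bz1 bz2 bw1 bw2 bx1 bx2 by1 by2 bd1 bd2
    (chk l L hl (by omega) hL (by omega))
  -- the bilinear part
  have hl9 : (l : ℝ) ≤ 9 := by linarith
  have hL9 : (L : ℝ) ≤ 9 := by linarith
  have c1 : 0 ≤ (100 - (10 - (l : ℝ)) * l) := cc1 _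
  have c2 : 0 ≤ (10 * (10 - (l : ℝ)) + 10 * L - (10 - l) * L) :=
    cc2 _ _ (by linarith) (by linarith) (by linarith)
  have c3 : 0 ≤ (10 * (10 - (L : ℝ)) + 10 * l - (10 - L) * l) :=
    cc2 _ _ (by linarith) (by linarith) (by linarith)
  have c4 : 0 ≤ (100 - (10 - (L : ℝ)) * L) := cc1 _
  obtain ⟨Bi, hB⟩ : ∃ Bi : ℝ, Bi = (100 - (10 - (l : ℝ)) * l) * (z * w)
      + (10 * (10 - (l : ℝ)) + 10 * L - (10 - l) * L) * (z * y)
      + (10 * (10 - (L : ℝ)) + 10 * l - (10 - L) * l) * (x * w)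
      + (100 - (10 - (L : ℝ)) * L) * (x * y) := ⟨_, rfl⟩
  have z0 : 0 ≤ z := by linarith
  have w0 : 0 ≤ w := by linarith
  have hB0 : 0 ≤ Bi := by
    rw [hB]
    have f1 := mul_nonneg c1 (mul_nonneg z0 w0)
    have f2 := mul_nonneg c2 (mul_nonneg z0 by1)
    have f3 := mul_nonneg c3 (mul_nonneg bx1 w0)
    have f4 := mul_nonneg c4 (mul_nonneg bx1 by1)
    linarith
  have e3 : p0 * r0 + 10 * (p0 * (wj + W01) + r0 * (zj + Z01)) =
      1 + m * (l * z + (10 - l) * w + L * x + (10 - L) * y) - m * (m * Bi) := by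
    rw [hp0', hr0', hk', hK', ez, ew, ex, ey, hB]
    ring
  have e4 : m * (m * Bi) ≤ m * (Bi / 30) := by
    apply mul_le_mul_of_nonneg_left _ hm0.le
    have := mul_le_mul_of_nonneg_right hm hB0
    linarith
  unfold g at hpos
  rw [← hB] at hpos
  have e5 := mul_pos hm0 hpos
  rw [ed] at e1
  linarith

end R745CD
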