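import Pool.Agent.R745.CDN.Defs

/-! Constant distance code pairs: the final contradiction for `Q = 10`. -/

set_option linter.all false

namespace R745CD

open H825CD

namespace F10

theorem aff {φ : ℝ → ℝ} (hφ : ∀ t, φ t = φ 0 + (φ 1 - φ 0) * t) {t t0 t1 : ℝ} (h0 : t0 ≤ t)
    (h1 : t ≤ t1) (ha : 0 < φ t0) (hb : 0 < φ t1) : 0 < φ t := by
  have e := hφ t
  have e0 := hφ t0
  have e1 := hφ t1
  rcases le_total 0 (φ 1 - φ 0) with hb' | hb'
  · have := mul_le_mul_of_nonneg_left h0 hb'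
    linarith
  · have := mul_le_mul_of_nonpos_left h1 hb'
    linarith

/-- the scaled function -/
noncomputable def g (l L z w x y d : ℝ) : ℝ :=
  l * z + (10 - l) * w + L * x + (10 - L) * y
    - ((100 - (10 - l) * l) * (z * w) + (10 * (10 - l) + 10 * L - (10 - l) * L) * (z * y)
      + (10 * (10 - L) + 10 * l - (10 - L) * l) * (x * w) + (100 - (10 - L) * L) * (x * y)) / 30
    - (10 * L - 50) * d

/-- one of two numbers -/
noncomputable def sel (b : Bool) (u v : ℝ) : ℝ := if b then v else u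

theorem box {l L cz cw dz dw z w x y d : ℝ} (hz1 : 1 ≤ z) (hz2 : z ≤ cz) (hw1 : 1 ≤ w)
    (hw2 : w ≤ cw) (hx1 : 0 ≤ x) (hx2 : x ≤ dz) (hy1 : 0 ≤ y) (hy2 : y ≤ dw)
    (hd1 : -(1 / 30) ≤ d) (hd2 : d ≤ 1 / 30)
    (h : ∀ i j s t e : Bool, 0 < g l L (sel i 1 cz) (sel j 1 cw) (sel s 0 dz) (sel t 0 dw)
      (sel e (-(1 / 30)) (1 / 30))) : 0 < g l L z w x y d := by
  have h1 : ∀ i j s t : Bool,
      0 < g l L (sel i 1 cz) (sel j 1 cw) (sel s 0 dz) (sel t 0 dw) d := fun i j s t =>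
    aff (φ := fun d => g l L (sel i 1 cz) (sel j 1 cw) (sel s 0 dz) (sel t 0 dw) d)
      (fun t => by simp only [g]; ring) hd1 hd2 (h i j s t false) (h i j s t true)
  have h2 : ∀ i j s : Bool,
      0 < g l L (sel i 1 cz) (sel j 1 cw) (sel s 0 dz) y d := fun i j s =>
    aff (φ := fun y => g l L (sel i 1 cz) (sel j 1 cw) (sel s 0 dz) y d)
      (fun t => by simp only [g]; ring) hy1 hy2 (h1 i j s false) (h1 i j s true)
  have h3 : ∀ i j : Bool,
      0 < g l L (sel i 1 cz) (sel j 1 cw) x y d := fun i j =>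
    aff (φ := fun x => g l L (sel i 1 cz) (sel j 1 cw) x y d)
      (fun t => by simp only [g]; ring) hx1 hx2 (h2 i j false) (h2 i j true)
  have h4 : ∀ i : Bool,
      0 < g l L (sel i 1 cz) w x y d := fun i =>
    aff (φ := fun w => g l L (sel i 1 cz) w x y d)
      (fun t => by simp only [g]; ring) hw1 hw2 (h3 i false) (h3 i true)
  exact aff (φ := fun z => g l L z w x y d)
      (fun t => by simp only [g]; ring) hz1 hz2 (h4 false) (h4 true)

/-- one of two integers -/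
def sz (b : Bool) (u v : ℤ) : ℤ := if b then v else u

/-- the scaled function in integers -/
def gz (l L Z W X Y D : ℤ) : ℤ :=
  300000 * (l * Z + (10 - l) * W + L * X + (10 - L) * Y)
    - ((100 - (10 - l) * l) * (Z * W) + (10 * (10 - l) + 10 * L - (10 - l) * L) * (Z * Y)
      + (10 * (10 - L) + 10 * l - (10 - L) * l) * (X * W) + (100 - (10 - L) * L) * (X * Y))
    - (10 * L - 50) * D * 100000000

theorem chkz : ∀ l L : Fin 9, ∀ i j s t e : Bool,
    0 < gz ((l.1 : ℤ) + 1) ((L.1 : ℤ) + 1) (sz i 10000 (10000 + 473 * (l.1 : ℤ)))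
      (sz j 10000 (10000 + 473 * (8 - (l.1 : ℤ)))) (sz s 0 (10000 + 538 * ((L.1 : ℤ) + 1)))
      (sz t 0 (10000 + 538 * (9 - (L.1 : ℤ)))) (sz e (-1) 1) := by
  decide +kernel

theorem gz_cast (l L Z W X Y D : ℤ) : ((gz l L Z W X Y D : ℤ) : ℝ) =
    3000000000 * g l L (Z / 10000) (W / 10000) (X / 10000) (Y / 10000) (D / 30) := by
  unfold gz g
  push_cast
  ring

theorem chk (l L : ℕ) (h1 : 1 ≤ l) (h2 : l ≤ 9) (h3 : 1 ≤ L) (h4 : L ≤ 9) (i j s t e : Bool) :
    0 < g l L (sel i 1 (1 + 473 / 10000 * (l - 1))) (sel j 1 (1 + 473 / 10000 * (9 - l)))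
      (sel s 0 (1 + 538 / 10000 * L)) (sel t 0 (1 + 538 / 10000 * (10 - L)))
      (sel e (-(1 / 30)) (1 / 30)) := by
  obtain ⟨l, rfl⟩ : ∃ n, l = n + 1 := ⟨l - 1, by omega⟩
  obtain ⟨L, rfl⟩ : ∃ n, L = n + 1 := ⟨L - 1, by omega⟩
  have h := chkz ⟨l, by omega⟩ ⟨L, by omega⟩ i j s t e
  have h' : (0 : ℝ) < ((gz ((l : ℤ) + 1) ((L : ℤ) + 1) (sz i 10000 (10000 + 473 * (l : ℤ)))
      (sz j 10000 (10000 + 473 * (8 - (l : ℤ)))) (sz s 0 (10000 + 538 * ((L : ℤ) + 1)))
      (sz t 0 (10000 + 538 * (9 - (L : ℤ)))) (sz e (-1) 1) : ℤ) : ℝ) := by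
    exact_mod_cast h
  rw [gz_cast] at h'
  have e1 : sel i 1 (1 + 473 / 10000 * (((l + 1 : ℕ) : ℝ) - 1)) =
      ((sz i 10000 (10000 + 473 * (l : ℤ)) : ℤ) : ℝ) / 10000 := by
    cases i
    · norm_num [sel, sz]
    · simp only [sel, sz, if_true]
      push_cast
      ring
  have e2 : sel j 1 (1 + 473 / 10000 * (9 - ((l + 1 : ℕ) : ℝ))) =
      ((sz j 10000 (10000 + 473 * (8 - (l : ℤ))) : ℤ) : ℝ) / 10000 := by
    cases j
    · norm_num [sel, sz]
    · simp only [sel, sz, if_true]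
      push_cast
      ring
  have e3 : sel s 0 (1 + 538 / 10000 * ((L + 1 : ℕ) : ℝ)) =
      ((sz s 0 (10000 + 538 * ((L : ℤ) + 1)) : ℤ) : ℝ) / 10000 := by
    cases s
    · norm_num [sel, sz]
    · simp only [sel, sz, if_true]
      push_cast
      ring
  have e4 : sel t 0 (1 + 538 / 10000 * (10 - ((L + 1 : ℕ) : ℝ))) =
      ((sz t 0 (10000 + 538 * (9 - (L : ℤ))) : ℤ) : ℝ) / 10000 := by
    cases t
    · norm_num [sel, sz]
    · simp only [sel, sz, if_true]
      push_cast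
      ring
  have e5 : sel e (-(1 / 30)) (1 / 30) = ((sz e (-1) 1 : ℤ) : ℝ) / 30 := by
    cases e <;> norm_num [sel, sz]
  rw [e1, e2, e3, e4, e5]
  have e6 : (((l + 1 : ℕ)) : ℝ) = (((l : ℤ) + 1 : ℤ) : ℝ) := by push_cast; ring
  have e7 : (((L + 1 : ℕ)) : ℝ) = (((L : ℤ) + 1 : ℤ) : ℝ) := by push_cast; ring
  rw [e6, e7]
  linarith

/-- upper bounds at the critical coordinate -/
theorem upJ {m k l z w b a : ℝ} (hm : 30 * m ≤ 1) (hm0 : 0 < m) (hk : 1 ≤ k) (hl : 1 ≤ l)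
    (hkl : k + l = 10) (hz : 0 < z) (hw : 0 < w) (hb2 : b ≤ 1 / 2) (ha2 : a ≤ 1 / 2)
    (ha : a ≤ k * z) (hb : b ≤ l * w) (h1 : z * (1 - b + w) ≤ m) (h2 : w * (1 - a + z) ≤ m) :
    z ≤ m * (1 + 473 / 10000 * (l - 1)) ∧ w ≤ m * (1 + 473 / 10000 * (9 - l)) := by
  have hzw := mul_pos hz hw
  have z1 : z ≤ 2 * m := by
    have := mul_le_mul_of_nonneg_left hb2 hz.le
    nlinarith
  have w1 : w ≤ 2 * m := by
    have := mul_le_mul_of_nonneg_left ha2 hw.le
    nlinarith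
  have z2 : z ≤ m + (l - 1) * (z * w) := by
    have := mul_le_mul_of_nonneg_left hb hz.le
    nlinarith
  have w2 : w ≤ m + (k - 1) * (z * w) := by
    have := mul_le_mul_of_nonneg_left ha hw.le
    nlinarith
  have s1 : z + w ≤ 2 * m + 8 * (z * w) := by
    have e : (l - 1) * (z * w) + (k - 1) * (z * w) = 8 * (z * w) := by
      have : l - 1 + (k - 1) = 8 := by linarith
      rw [← add_mul, this]
    linarith
  have s2 : 4 * (z * w) ≤ (z + w) ^ 2 := by nlinarith [sq_nonneg (z - w)]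
  have s3 : z + w ≤ 238 / 100 * m := by
    by_contra hcon
    push Not at hcon
    have f1 : 0 ≤ (z + w - 238 / 100 * m) * (1 - 2 * (z + w + 238 / 100 * m)) :=
      mul_nonneg (by linarith) (by linarith)
    have f2 : 0 ≤ m * (1 - 30 * m) := mul_nonneg hm0.le (by linarith)
    nlinarith
  have s4 : z * w ≤ 473 / 10000 * m := by
    have f1 : (z + w) ^ 2 ≤ (238 / 100 * m) ^ 2 := by
      apply pow_le_pow_left₀ (by linarith) s3
    have f2 : 0 ≤ m * (1 - 30 * m) := mul_nonneg hm0.le (by linarith)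
    nlinarith
  constructor
  · have := mul_le_mul_of_nonneg_left s4 (by linarith : 0 ≤ l - 1)
    linarith
  · have := mul_le_mul_of_nonneg_left s4 (by linarith : 0 ≤ k - 1)
    have e : k - 1 = 9 - l := by linarith
    rw [e] at this w2
    linarith

/-- upper bounds at the partner coordinate -/
theorem upI {m k l z w b a : ℝ} (hm : 30 * m ≤ 1) (hm0 : 0 < m) (hk : 1 ≤ k) (hl : 1 ≤ l)
    (hkl : k + l = 10) (hz : 0 < z) (hw : 0 < w) (hb2 : b ≤ 1 / 2) (ha2 : a ≤ 1 / 2)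
    (ha : a ≤ k * z) (hb : b ≤ l * w) (h1 : z * (1 - b) ≤ m) (h2 : w * (1 - a) ≤ m) :
    z ≤ m * (1 + 538 / 10000 * l) ∧ w ≤ m * (1 + 538 / 10000 * (10 - l)) := by
  have hzw := mul_pos hz hw
  have z1 : z ≤ 2 * m := by
    have := mul_le_mul_of_nonneg_left hb2 hz.le
    nlinarith
  have w1 : w ≤ 2 * m := by
    have := mul_le_mul_of_nonneg_left ha2 hw.le
    nlinarith
  have z2 : z ≤ m + l * (z * w) := by
    have := mul_le_mul_of_nonneg_left hb hz.le
    nlinarith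
  have w2 : w ≤ m + k * (z * w) := by
    have := mul_le_mul_of_nonneg_left ha hw.le
    nlinarith
  have s1 : z + w ≤ 2 * m + 10 * (z * w) := by
    have e : l * (z * w) + k * (z * w) = 10 * (z * w) := by
      have : l + k = 10 := by linarith
      rw [← add_mul, this]
    linarith
  have s2 : 4 * (z * w) ≤ (z + w) ^ 2 := by nlinarith [sq_nonneg (z - w)]
  have s3 : z + w ≤ 254 / 100 * m := by
    by_contra hcon
    push Not at hcon
    have f1 : 0 ≤ (z + w - 254 / 100 * m) * (1 - 5 / 2 * (z + w + 254 / 100 * m)) :=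
      mul_nonneg (by linarith) (by linarith)
    have f2 : 0 ≤ m * (1 - 30 * m) := mul_nonneg hm0.le (by linarith)
    nlinarith
  have s4 : z * w ≤ 538 / 10000 * m := by
    have f1 : (z + w) ^ 2 ≤ (254 / 100 * m) ^ 2 := by
      apply pow_le_pow_left₀ (by linarith) s3
    have f2 : 0 ≤ m * (1 - 30 * m) := mul_nonneg hm0.le (by linarith)
    nlinarith
  constructor
  · have := mul_le_mul_of_nonneg_left s4 (by linarith : 0 ≤ l)
    linarith
  · have := mul_le_mul_of_nonneg_left s4 (by linarith : 0 ≤ k)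
    have e : k = 10 - l := by linarith
    rw [e] at this w2
    linarith

end F10


end R745CD
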